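import Pool.Agent.Helper85.IA.St

/-!
# Project IA, part N, module RSM: sums of the new weights
-/

set_option autoImplicit false

namespace Pool.Agent.Helper12.IA85

open Finset Pool.Agent.Helper93.IA Pool.Agent.Helper85.IA

private lemma Nlow {ε δ : ℝ} (h0 : 0 < ε) (hd : 0 ≤ δ) :
    1 - 2 * ε ≤ 1 - 2 * ε + 2 * ε * δ + 23 / 4 * ε ^ 2 := by
  have h1 : 0 ≤ 2 * ε * δ := by positivity
  have h2 : 0 ≤ 23 / 4 * ε ^ 2 := by positivity
  linarith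

private lemma Mup {ε δ q : ℝ} (h0 : 0 < ε) (hd : 0 ≤ δ) (hq : q ≤ ε / 2) :
    1 - 2 * ((1 - 2 * ε) * ((1 - δ) * ε)) + ε ^ 2 + ε * q ≤
      1 - 2 * ε + 2 * ε * δ + 23 / 4 * ε ^ 2 - ε ^ 2 / 4 := by
  have h1 : ε * q ≤ ε * (ε / 2) := mul_le_mul_of_nonneg_left hq h0.le
  have h2 : 0 ≤ ε ^ 2 * δ := by positivity
  nlinarith [h1, h2]

private lemma Mpos {ε δ q : ℝ} (h0 : 0 < ε) (h8 : ε ≤ 1 / 8) (hd : 0 ≤ δ) (hq : 0 ≤ q) :
    0 ≤ 1 - 2 * ((1 - 2 * ε) * ((1 - δ) * ε)) + ε ^ 2 + ε * q := by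
  have h1 : 0 ≤ ε * q := mul_nonneg h0.le hq
  have h2 : (1 - δ) * ε ≤ ε := by nlinarith
  have h3 : (1 - 2 * ε) * ((1 - δ) * ε) ≤ (1 - 2 * ε) * ε :=
    mul_le_mul_of_nonneg_left h2 (by linarith)
  nlinarith [sq_nonneg ε]

/-- The upper bound. -/
private lemma coreUp {ε δ q η k F S : ℝ} (h0 : 0 < ε) (h8 : ε ≤ 1 / 8) (hd : 0 ≤ δ)
    (hq0 : 0 ≤ q) (hq : q ≤ ε / 2) (hη : η ≤ ε ^ 2 / 4) (hk : k = 0 ∨ k = 1) (_hF : 0 ≤ F)
    (hS1 : S ≤ 1)
    (hup : F ≤ (1 - 2 * ((1 - 2 * ε) * ((1 - δ) * ε)) + ε ^ 2 + ε * q) * S + η) :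
    (1 - k) * F / (1 - 2 * ε + 2 * ε * δ + 23 / 4 * ε ^ 2) ≤ 1 := by
  have hN := Nlow h0 hd
  have hM := Mup (δ := δ) h0 hd hq
  have hM0 := Mpos (δ := δ) h0 h8 hd hq0
  have hNp : 0 < 1 - 2 * ε + 2 * ε * δ + 23 / 4 * ε ^ 2 := by linarith
  have h1 : (1 - 2 * ((1 - 2 * ε) * ((1 - δ) * ε)) + ε ^ 2 + ε * q) * S ≤
      (1 - 2 * ((1 - 2 * ε) * ((1 - δ) * ε)) + ε ^ 2 + ε * q) * 1 :=
    mul_le_mul_of_nonneg_left hS1 hM0
  have h2 : F ≤ 1 - 2 * ε + 2 * ε * δ + 23 / 4 * ε ^ 2 := by linarith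
  rw [div_le_one hNp]
  rcases hk with rfl | rfl
  · linarith
  · linarith

/-- The lower bound. -/
private lemma coreLo {ε δ η F S : ℝ} (h0 : 0 < ε) (h8 : ε ≤ 1 / 8) (hd : 0 ≤ δ)
    (hη : η ≤ ε ^ 2 / 4) (hS : 1 - δ ≤ S) (hlo : (1 - 2 * ε) * S - η ≤ F) :
    1 - (1 + 4 * ε) * (δ + 6 * ε ^ 2) ≤ F / (1 - 2 * ε + 2 * ε * δ + 23 / 4 * ε ^ 2) := by
  have hN := Nlow h0 hd
  have hNp : 0 < 1 - 2 * ε + 2 * ε * δ + 23 / 4 * ε ^ 2 := by linarith
  rw [le_div_iff₀ hNp]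
  have h1 : (1 - 2 * ε) * (1 - δ) ≤ (1 - 2 * ε) * S :=
    mul_le_mul_of_nonneg_left hS (by linarith)
  have h2 : 1 ≤ (1 + 4 * ε) * (1 - 2 * ε + 2 * ε * δ + 23 / 4 * ε ^ 2) := by
    have h3 : (1 + 4 * ε) * (1 - 2 * ε) ≤
        (1 + 4 * ε) * (1 - 2 * ε + 2 * ε * δ + 23 / 4 * ε ^ 2) :=
      mul_le_mul_of_nonneg_left hN (by linarith)
    nlinarith
  have h4 : 0 ≤ δ + 6 * ε ^ 2 := by positivity
  have h5 : (δ + 6 * ε ^ 2) * 1 ≤
      (δ + 6 * ε ^ 2) * ((1 + 4 * ε) * (1 - 2 * ε + 2 * ε * δ + 23 / 4 * ε ^ 2)) :=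
    mul_le_mul_of_nonneg_left h2 h4
  nlinarith [h5, h1]

theorem hRSM : StRIM → StRSM := by
  intro hRIM α β γ _ _ _ _ _ _ Λ ε δ d η n A B C x σ hΛ h0 h8 hd hd4 hη0 hη hn hq hD hR z hz
  obtain ⟨iA, iB, iC⟩ := hRIM α β γ σ
  have hnR : (0 : ℝ) < n := by exact_mod_cast hn
  have hN := Nlow h0 hd
  have h2ε : 0 < 1 - 2 * ε := by linarith
  have hNp : 0 < 1 - 2 * ε + 2 * ε * δ + 23 / 4 * ε ^ 2 := by linarith
  have hq0 : 0 ≤ Λ / n := by positivity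
  have eq1 : ε * Λ / n = ε * (Λ / n) := by ring
  have vA : ∀ a b, kA σ a b = 0 ∨ kA σ a b = 1 := by
    intro a b; rw [iA]; split_ifs <;> simp
  have vB : ∀ b c, kB σ b c = 0 ∨ kB σ b c = 1 := by
    intro b c; rw [iB]; split_ifs <;> simp
  have vC : ∀ c a, kC σ c a = 0 ∨ kC σ c a = 1 := by
    intro c a; rw [iC]; split_ifs <;> simp
  have wA : ∀ a b, 0 ≤ 1 - kA σ a b ∧ 1 - kA σ a b ≤ 1 := by
    intro a b; rcases vA a b with h | h <;> rw [h] <;> norm_num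
  have wB : ∀ b c, 0 ≤ 1 - kB σ b c ∧ 1 - kB σ b c ≤ 1 := by
    intro b c; rcases vB b c with h | h <;> rw [h] <;> norm_num
  have wC : ∀ c a, 0 ≤ 1 - kC σ c a ∧ 1 - kC σ c a ≤ 1 := by
    intro c a; rcases vC c a with h | h <;> rw [h] <;> norm_num
  have zA : ∀ a b, (a, b) ∈ A \ (P1 σ).image eA → kA σ a b = 0 := by
    intro a b h
    rw [iA, if_neg (Finset.mem_sdiff.mp h).2]
  have zB : ∀ b c, (b, c) ∈ B \ (P1 σ).image eB → kB σ b c = 0 := by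
    intro b c h
    rw [iB, if_neg (Finset.mem_sdiff.mp h).2]
  have zC : ∀ c a, (c, a) ∈ C \ (P1 σ).image eC → kC σ c a = 0 := by
    intro c a h
    rw [iC, if_neg (Finset.mem_sdiff.mp h).2]
  have hzz : ∀ a b c, z a b c = x a b c * ((1 - kA σ a b) * (1 - kB σ b c) * (1 - kC σ c a)) /
      (1 - 2 * ε + 2 * ε * δ + 23 / 4 * ε ^ 2) := fun a b c => hz a b c
  have hp0 : ∀ a b c, 0 ≤ (1 - kA σ a b) * (1 - kB σ b c) * (1 - kC σ c a) := fun a b c =>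
    mul_nonneg (mul_nonneg (wA a b).1 (wB b c).1) (wC c a).1
  have hp1 : ∀ a b c, (1 - kA σ a b) * (1 - kB σ b c) * (1 - kC σ c a) ≤ 1 := fun a b c =>
    mul_le_one₀ (mul_le_one₀ (wA a b).2 (wB b c).1 (wB b c).2) (wC c a).1 (wC c a).2
  have sumA : ∀ a b, ∑ c, z a b c = (1 - kA σ a b) * F1 σ (fun c => x a b c) 1 1 a b /
      (1 - 2 * ε + 2 * ε * δ + 23 / 4 * ε ^ 2) := by
    intro a b
    unfold F1
    rw [Finset.mul_sum, Finset.sum_div]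
    refine Finset.sum_congr rfl fun c _ => ?_
    rw [hzz]; ring
  have sumB : ∀ b c, ∑ a, z a b c = (1 - kB σ b c) * F3 σ (fun a => x a b c) 1 1 b c /
      (1 - 2 * ε + 2 * ε * δ + 23 / 4 * ε ^ 2) := by
    intro b c
    unfold F3
    rw [Finset.mul_sum, Finset.sum_div]
    refine Finset.sum_congr rfl fun a _ => ?_
    rw [hzz]; ring
  have sumC : ∀ c a, ∑ b, z a b c = (1 - kC σ c a) * F2 σ (fun b => x a b c) 1 1 c a /
      (1 - 2 * ε + 2 * ε * δ + 23 / 4 * ε ^ 2) := by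
    intro c a
    unfold F2
    rw [Finset.mul_sum, Finset.sum_div]
    refine Finset.sum_congr rfl fun b _ => ?_
    rw [hzz]; ring
  have f1 : ∀ a b, 0 ≤ F1 σ (fun c => x a b c) 1 1 a b := by
    intro a b
    unfold F1
    refine Finset.sum_nonneg fun c _ => mul_nonneg (hD.x0 a b c) (mul_nonneg ?_ ?_)
    · rw [one_mul]; exact (wB b c).1
    · rw [one_mul]; exact (wC c a).1
  have f3 : ∀ b c, 0 ≤ F3 σ (fun a => x a b c) 1 1 b c := by
    intro b c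
    unfold F3
    refine Finset.sum_nonneg fun a _ => mul_nonneg (hD.x0 a b c) (mul_nonneg ?_ ?_)
    · rw [one_mul]; exact (wA a b).1
    · rw [one_mul]; exact (wC c a).1
  have f2 : ∀ c a, 0 ≤ F2 σ (fun b => x a b c) 1 1 c a := by
    intro c a
    unfold F2
    refine Finset.sum_nonneg fun b _ => mul_nonneg (hD.x0 a b c) (mul_nonneg ?_ ?_)
    · rw [one_mul]; exact (wA a b).1
    · rw [one_mul]; exact (wB b c).1
  refine ⟨?_, ?_, ?_, ?_, ?_, ?_, ?_, ?_, ?_⟩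
  · intro a b c
    rw [hzz]
    exact div_nonneg (mul_nonneg (hD.x0 a b c) (hp0 a b c)) hNp.le
  · intro a b c
    rw [hzz]
    have h1 : x a b c * ((1 - kA σ a b) * (1 - kB σ b c) * (1 - kC σ c a)) ≤ Λ / n :=
      le_trans (mul_le_of_le_one_right (hD.x0 a b c) (hp1 a b c)) (hD.xl a b c)
    have h2 : Λ / (1 - 2 * ε) / n = Λ / n / (1 - 2 * ε) := by
      rw [div_div, div_div, mul_comm]
    rw [h2]
    exact div_le_div₀ hq0 h1 h2ε hN
  · intro a b c hne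
    rw [hzz] at hne
    have hx : x a b c ≠ 0 := by
      intro h; apply hne; rw [h]; simp
    have hA : kA σ a b = 0 := by
      rcases vA a b with h | h
      · exact h
      · exfalso; apply hne; rw [h]; simp
    have hB : kB σ b c = 0 := by
      rcases vB b c with h | h
      · exact h
      · exfalso; apply hne; rw [h]; simp
    have hC : kC σ c a = 0 := by
      rcases vC c a with h | h
      · exact h
      · exfalso; apply hne; rw [h]; simp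
    obtain ⟨m1, m2, m3⟩ := hD.sup a b c hx
    refine ⟨Finset.mem_sdiff.mpr ⟨m1, ?_⟩, Finset.mem_sdiff.mpr ⟨m2, ?_⟩,
      Finset.mem_sdiff.mpr ⟨m3, ?_⟩⟩
    · intro h
      rw [iA, if_pos h] at hA
      exact one_ne_zero hA
    · intro h
      rw [iB, if_pos h] at hB
      exact one_ne_zero hB
    · intro h
      rw [iC, if_pos h] at hC
      exact one_ne_zero hC
  · intro a b h
    rw [sumA, zA a b h, sub_zero, one_mul]
    exact coreLo h0 h8 hd hη (hD.lA a b (Finset.mem_sdiff.mp h).1) (hR.loA a b)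
  · intro a b
    rw [sumA]
    have hup := hR.upA a b
    rw [eq1] at hup
    exact coreUp h0 h8 hd hq0 hq hη (vA a b) (f1 a b) (hD.uA a b) hup
  · intro b c h
    rw [sumB, zB b c h, sub_zero, one_mul]
    exact coreLo h0 h8 hd hη (hD.lB b c (Finset.mem_sdiff.mp h).1) (hR.loB b c)
  · intro b c
    rw [sumB]
    have hup := hR.upB b c
    rw [eq1] at hup
    exact coreUp h0 h8 hd hq0 hq hη (vB b c) (f3 b c) (hD.uB b c) hup
  · intro c a h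
    rw [sumC, zC c a h, sub_zero, one_mul]
    exact coreLo h0 h8 hd hη (hD.lC c a (Finset.mem_sdiff.mp h).1) (hR.loC c a)
  · intro c a
    rw [sumC]
    have hup := hR.upC c a
    rw [eq1] at hup
    exact coreUp h0 h8 hd hq0 hq hη (vC c a) (f2 c a) (hD.uC c a) hup

end Pool.Agent.Helper12.IA85
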